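import Pool.Agent.H95.AG.CB2

/-!
ABSOLUTE GAP (`MP_c59857_nt`): the choice of the parameters of the descent.
-/

set_option autoImplicit false

open MeasureTheory ProbabilityTheory Filter Topology Finset
open scoped Nat ENNReal

namespace Pool.Agent.H95.AG

open Pool.Agent.H67.AG Pool.Agent.H40.AG

theorem dt_meas (c : CtxE) (i : Fin c.k) : Measurable (c.Dt i) := by
  unfold Ctx.Dt
  exact c.Dm.comp (c.T.measurable.iterate _)

theorem dt_val (c : CtxE) (i : Fin c.k) (x : c.X) : c.Dt i x = 1 ∨ c.Dt i x = -1 := c.Dv _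

theorem dt_abs (c : CtxE) (i : Fin c.k) (x : c.X) : |c.Dt i x| = 1 := by
  rcases dt_val c i x with h | h <;> rw [h] <;> simp

theorem int_mp {Ω Ω' : Type} [MeasurableSpace Ω] [MeasurableSpace Ω'] {P : Measure Ω}
    {P' : Measure Ω'} {g : Ω → Ω'} (hg : MeasurePreserving g P P') {f : Ω' → ℝ}
    (hf : AEStronglyMeasurable f P') : ∫ q, f (g q) ∂P = ∫ q, f q ∂P' := by
  have hf' : AEStronglyMeasurable f (P.map g) := by rwa [hg.map_eq]
  have := integral_map hg.measurable.aemeasurable hf'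
  rw [hg.map_eq] at this
  exact this.symm

theorem gg_bound (hna : T_NA) (hj3 : T_J3) (hpnl : T_PNL) (hpnt : T_PNT) (c : CtxE)
    (Z : SA c.X) (hZ : InvZ c.T Z) (n W D : ℕ) (i : Fin c.k) (θ : ℝ)
    (hint : ∫ q, |((JJ c.μ Z)[fun q => c.D1 i q * c.D2 i q | Inv (TT c.T) (W * D)]) q -
      ((JJ c.μ Z)[fun q => c.D1 i q * c.D2 i q | Inv (TT c.T) W]) q| ∂(JJ c.μ Z) ≤ θ)
    (a b : Fin n) (hab : a ≠ b) :
    ∫ q, |((PN c.μ Z n)[fun q => c.Dt i (q.2 a) * c.Dt i (q.2 b) | Inv (TN c.T n) (W * D)]) q -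
      ((PN c.μ Z n)[fun q => c.Dt i (q.2 a) * c.Dt i (q.2 b) | Inv (TN c.T n) W]) q|
      ∂(PN c.μ Z n) ≤ θ := by
  have hT : MeasurePreserving c.T c.μ c.μ := c.erg.toMeasurePreserving
  have hJ : MeasurePreserving (TT c.T) (JJ c.μ Z) (JJ c.μ Z) := (hj3 c.X c.μ c.T Z hT hZ).1
  have hN : MeasurePreserving (TN c.T n) (PN c.μ Z n) (PN c.μ Z n) := hpnt c.X c.μ c.T Z n hT hZ
  have hg : MeasurePreserving (fun q : XN c.X n => (q.2 a, q.2 b)) (PN c.μ Z n) (JJ c.μ Z) :=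
    (hpnl c.X c.μ Z n).2.2.2.2 a b hab
  have hfac : Fac (PN c.μ Z n) (TN c.T n) (JJ c.μ Z) (TT c.T)
      (fun q : XN c.X n => (q.2 a, q.2 b)) := ⟨hg, fun q => rfl⟩
  have hfm : Measurable fun q : c.X × c.X => c.D1 i q * c.D2 i q :=
    ((dt_meas c i).comp measurable_fst).mul ((dt_meas c i).comp measurable_snd)
  have hfb : ∃ C, ∀ q : c.X × c.X, |c.D1 i q * c.D2 i q| ≤ C :=
    ⟨1, fun q => by
      rw [abs_mul]
      change |c.Dt i q.1| * |c.Dt i q.2| ≤ 1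
      rw [dt_abs, dt_abs, one_mul]⟩
  have e1 := hna (XN c.X n) (c.X × c.X) (PN c.μ Z n) (JJ c.μ Z) (TN c.T n) (TT c.T)
    (fun q : XN c.X n => (q.2 a, q.2 b)) (W * D) _ hN hJ hfac hfm hfb
  have e2 := hna (XN c.X n) (c.X × c.X) (PN c.μ Z n) (JJ c.μ Z) (TN c.T n) (TT c.T)
    (fun q : XN c.X n => (q.2 a, q.2 b)) W _ hN hJ hfac hfm hfb
  refine le_trans (le_of_eq ?_) hint
  have hsm : AEStronglyMeasurable (fun q : c.X × c.X =>
      |((JJ c.μ Z)[fun q => c.D1 i q * c.D2 i q | Inv (TT c.T) (W * D)]) q -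
      ((JJ c.μ Z)[fun q => c.D1 i q * c.D2 i q | Inv (TT c.T) W]) q|) (JJ c.μ Z) :=
    (integrable_condExp.sub integrable_condExp).abs.aestronglyMeasurable
  rw [← int_mp hg hsm]
  apply integral_congr_ae
  filter_upwards [e1, e2] with q e1 e2
  have e1' : ((PN c.μ Z n)[fun q => c.Dt i (q.2 a) * c.Dt i (q.2 b) | Inv (TN c.T n) (W * D)]) q =
    ((JJ c.μ Z)[fun q => c.D1 i q * c.D2 i q | Inv (TT c.T) (W * D)]) (q.2 a, q.2 b) := e1
  have e2' : ((PN c.μ Z n)[fun q => c.Dt i (q.2 a) * c.Dt i (q.2 b) | Inv (TN c.T n) W]) q =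
    ((JJ c.μ Z)[fun q => c.D1 i q * c.D2 i q | Inv (TT c.T) W]) (q.2 a, q.2 b) := e2
  rw [e1', e2']

theorem gg_diag (c : CtxE) (Z : SA c.X) (n W D : ℕ) (i : Fin c.k) (a : Fin n) :
    ∫ q, |((PN c.μ Z n)[fun q => c.Dt i (q.2 a) * c.Dt i (q.2 a) | Inv (TN c.T n) (W * D)]) q -
      ((PN c.μ Z n)[fun q => c.Dt i (q.2 a) * c.Dt i (q.2 a) | Inv (TN c.T n) W]) q|
      ∂(PN c.μ Z n) = 0 := by
  have h1 : (fun q : XN c.X n => c.Dt i (q.2 a) * c.Dt i (q.2 a)) = fun _ => (1 : ℝ) := by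
    funext q
    rcases dt_val c i (q.2 a) with h | h <;> rw [h] <;> norm_num
  rw [h1, condExp_const (inv_le _ _), condExp_const (inv_le _ _)]
  simp

/-- the numbers -/
theorem par_num {m k N θ : ℝ} (hm : 0 < m) (hk : 1 ≤ k) (hN : 1 ≤ N)
    (hθ : θ = m / (10 ^ 6 * N ^ 2 * (k + 1) ^ 2 * (2000 * (k + 1)))) :
    0 < θ ∧ θ * (10 ^ 6 * N ^ 2 * (k + 1) ^ 2) ≤ m ∧
    2 * θ + θ + m / (4 * 10 ^ 6 * (k + 1) ^ 2) + (N / m1 + 100 * N ^ 2) * θ ≤
      m / (10 ^ 6 * (k + 1) ^ 2) ∧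
    N ^ 2 * k * θ ≤ m / (3 * 10 ^ 4 * (k + 1) ^ 2) ∧ θ ≤ m / (3 * 10 ^ 4 * (k + 1) ^ 2) := by
  have hk0 : 0 < k := by linarith
  have hN0 : 0 < N := by linarith
  have hD : 0 < 10 ^ 6 * N ^ 2 * (k + 1) ^ 2 * (2000 * (k + 1)) := by positivity
  have hθ0 : 0 < θ := by rw [hθ]; positivity
  have hmul : θ * (10 ^ 6 * N ^ 2 * (k + 1) ^ 2 * (2000 * (k + 1))) = m := by
    rw [hθ, div_mul_cancel₀ _ hD.ne']
  have hN2 : N ≤ N ^ 2 := by nlinarith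
  have hN1 : 1 ≤ N ^ 2 := by nlinarith
  have hA : 2000 * (θ * (10 ^ 6 * N ^ 2 * (k + 1) ^ 2)) ≤ m := by
    rw [← hmul]
    have : 0 ≤ θ * (10 ^ 6 * N ^ 2 * (k + 1) ^ 2) := by positivity
    nlinarith
  have hB : k * (2000 * (θ * (10 ^ 6 * N ^ 2 * (k + 1) ^ 2))) ≤ m := by
    rw [← hmul]
    have : 0 ≤ θ * (10 ^ 6 * N ^ 2 * (k + 1) ^ 2) := by positivity
    nlinarith
  have hK : 0 < (k + 1) ^ 2 := by positivity
  refine ⟨hθ0, ?_, ?_, ?_, ?_⟩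
  · have : 0 ≤ θ * (10 ^ 6 * N ^ 2 * (k + 1) ^ 2) := by positivity
    linarith
  · have h1 : N / m1 ≤ 1235 * N ^ 2 := by
      unfold m1
      rw [div_le_iff₀ (by norm_num)]
      nlinarith
    have h2 : 2 * θ + θ + (N / m1 + 100 * N ^ 2) * θ ≤ 1400 * N ^ 2 * θ := by
      have : (N / m1 + 100 * N ^ 2) * θ ≤ (1235 * N ^ 2 + 100 * N ^ 2) * θ := by
        apply mul_le_mul_of_nonneg_right _ hθ0.le
        linarith
      nlinarith
    have h3 : 1400 * N ^ 2 * θ ≤ 3 * (m / (4 * 10 ^ 6 * (k + 1) ^ 2)) := by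
      rw [mul_div_assoc', le_div_iff₀ (by positivity)]
      nlinarith
    have h4 : m / (10 ^ 6 * (k + 1) ^ 2) = 4 * (m / (4 * 10 ^ 6 * (k + 1) ^ 2)) := by
      field_simp
    rw [h4]
    linarith
  · rw [le_div_iff₀ (by positivity)]
    nlinarith
  · rw [le_div_iff₀ (by positivity)]
    have : θ * (k + 1) ^ 2 ≤ θ * (N ^ 2 * (k + 1) ^ 2) := by
      apply mul_le_mul_of_nonneg_left _ hθ0.le
      nlinarith
    nlinarith

theorem mis_integrable {Ω : Type} (m : MeasurableSpace Ω) [mΩ : MeasurableSpace Ω]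
    (P : Measure Ω) {k : ℕ} (y y' : Fin k → Ω → ℝ) : Integrable (Mis P m y y') P := by
  unfold Mis
  exact integrable_finsetSum _ fun i _ => integrable_condExp

/-- the reference system of section 7 -/
noncomputable def refS (hpnt : T_PNT) (c : CtxE) (Z : SA c.X) (hZ : InvZ c.T Z) (n w : ℕ) (hw : 0 < w) : Sw where
  k := c.k
  β := c.β
  inj := c.inj
  σ := c.σ
  σv := c.σv
  w := w
  W := c.W w
  hw := hw
  hW := W_pos c w
  hd := Dvd.intro_left _ rfl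
  U := c.U w
  hU := c.hU w
  Ω' := XN c.X n
  P' := PN c.μ Z n
  T' := TN c.T n
  mp' := hpnt c.X c.μ c.T Z n c.erg.toMeasurePreserving hZ
  n := n
  y := fun b i q => c.Dt i (q.2 b)
  hy := fun b => ⟨fun i => (dt_meas c i).comp ((measurable_pi_apply b).comp measurable_snd),
    fun i _ => dt_val c i _⟩

theorem pf_CB0 (h1 : T_CLM) (h2 : T_CHW) (h3 : T_CHL) (h4 : T_CHR) (h5 : T_GGP) (h6 : T_SLV)
    (h7 : T_SW) (hna : T_NA) (hnx : T_NXI) (_hj2 : T_J2) (hj3 : T_J3) (hpnl : T_PNL)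
    (hpnt : T_PNT) (_hpxl : T_PXL) (hpxt : T_PXT) (hpxf : T_PXF) : T_CB0 := by
  intro c Z hZ hcp
  obtain ⟨hZ', hle, hrt⟩ := hnx c.X c.μ c.T Z c.erg hZ
  have hT : MeasurePreserving c.T c.μ c.μ := c.erg.toMeasurePreserving
  set Z' := nxt c.μ c.T Z with hZdef
  obtain ⟨c₀, X1, hc0, hc1, hX1, hXg, hpos, hcl⟩ := h1 c Z' hZ' hcp
  have hk1 : 1 ≤ c.k := c.kpos
  have hkR : (1 : ℝ) ≤ c.k := by exact_mod_cast hk1
  set M : ℝ := c.μ.real X1 with hM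
  set ε : ℝ := M / (4 * 10 ^ 6 * ((c.k : ℝ) + 1) ^ 2) with hε
  have hε0 : 0 < ε := by positivity
  obtain ⟨n, hn⟩ : ∃ n : ℕ, (1 - c₀) ^ (n + 1) ≤ ε := by
    obtain ⟨n, hn⟩ := exists_pow_lt_of_lt_one hε0 (show 1 - c₀ < 1 by linarith)
    refine ⟨n, ?_⟩
    rw [pow_succ]
    have h0 : 0 ≤ (1 - c₀) ^ n := pow_nonneg (by linarith) n
    nlinarith
  have hN1 : (1 : ℝ) ≤ (n : ℝ) + 1 := by
    have : (0 : ℝ) ≤ n := Nat.cast_nonneg n
    linarith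
  obtain ⟨θ, hθ⟩ : ∃ θ : ℝ, θ = M / (10 ^ 6 * ((n : ℝ) + 1) ^ 2 * ((c.k : ℝ) + 1) ^ 2 *
    (2000 * ((c.k : ℝ) + 1))) := ⟨_, rfl⟩
  obtain ⟨hθ0, hθ1, hθ2, hθ3, hθ4⟩ := par_num hpos hkR hN1 hθ
  set η : ℝ := M / (3 * 10 ^ 4 * ((c.k : ℝ) + 1) ^ 2) with hη
  have hη0 : 0 < η := by positivity
  obtain ⟨w, X1', hw, hX1', -, hsd, hlam, hmis, hpair, hkw⟩ :=
    h2 c Z' X1 (θ / 2) hZ' hX1 hXg (by linarith)
  obtain ⟨L₀, hL₀⟩ := h3 c Z' (c.W w) (θ / 2) hZ' (by linarith)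
  set d := refS hpnt c Z' hZ' (n + 1) w hw with hd
  have hsw1 : ∑ a, ∑ b, ∑ i, ∫ ω, |(d.P'[d.gg a b i | Inv d.T' (d.W * Dlt d.β)]) ω -
      (d.P'[d.gg a b i | Inv d.T' d.W]) ω| ∂d.P' ≤ η := by
    have hterm : ∀ (a b : Fin (n + 1)) (i : Fin c.k),
        ∫ ω, |(d.P'[d.gg a b i | Inv d.T' (d.W * Dlt d.β)]) ω -
        (d.P'[d.gg a b i | Inv d.T' d.W]) ω| ∂d.P' ≤ θ / 2 := by
      intro a b i
      by_cases hab : a = b
      · subst hab
        have := gg_diag c Z' (n + 1) (c.W w) (Dlt c.β) i a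
        exact this.le.trans (by linarith)
      · exact gg_bound hna hj3 hpnl hpnt c Z' hZ' (n + 1) (c.W w) (Dlt c.β) i (θ / 2)
          (hpair i) a b hab
    have hsum : ∑ a : Fin (n + 1), ∑ b : Fin (n + 1), ∑ i : Fin c.k,
        ∫ ω, |(d.P'[d.gg a b i | Inv d.T' (d.W * Dlt d.β)]) ω -
        (d.P'[d.gg a b i | Inv d.T' d.W]) ω| ∂d.P' ≤
        ∑ a : Fin (n + 1), ∑ b : Fin (n + 1), ∑ i : Fin c.k, θ / 2 :=
      Finset.sum_le_sum fun a _ => Finset.sum_le_sum fun b _ => Finset.sum_le_sum fun i _ =>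
        hterm a b i
    refine hsum.trans ?_
    simp only [Finset.sum_const, Finset.card_univ, Fintype.card_fin, nsmul_eq_mul]
    push_cast
    have hk0 : (0 : ℝ) ≤ c.k := by linarith
    nlinarith [mul_nonneg (mul_nonneg (sq_nonneg ((n : ℝ) + 1)) hk0) hθ0.le]
  have hsw2 : (d.k : ℝ) ^ 2 / d.w ≤ η := by
    change (c.k : ℝ) ^ 2 / w ≤ η
    linarith
  obtain ⟨L₁, hL₁⟩ := h7 d η hη0 hsw1 hsw2
  obtain ⟨h, hh⟩ : ∃ h : ℕ, h = L₀ + L₁ + 1 := ⟨_, rfl⟩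
  obtain ⟨L, hL⟩ : ∃ L : ℕ, L = 16 * c.k * h := ⟨_, rfl⟩
  have hhL : h ≤ L := by
    rw [hL]
    nlinarith
  have hLpos : 0 < L := by omega
  have hLL₀ : L₀ ≤ L := by omega
  have hLL₁ : 16 * c.k * L₁ ≤ L := by
    rw [hL]
    exact Nat.mul_le_mul_left _ (by omega)
  obtain ⟨R, hRp, hRT, hRJ, hR1, hR2, hRw, hRx⟩ := h4 c Z (c.W w) L X1' θ hZ (W_pos c w) hX1' hθ0
  set P : Measure (XX c.X (n + 1)) := PX c.μ Z' (n + 1) R with hP
  -- the window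
  have hwin : ∫ q, |c.dL (c.W w) L q - c.MR Z' q| ∂(JJ c.μ Z') ≤ θ := by
    have hdLm : Measurable (c.dL (c.W w) L) := by
      unfold CtxE.dL
      refine Finset.measurable_sum _ fun i _ => av_meas _ _ _ ?_
      unfold dl
      exact Measurable.ite (measurableSet_eq_fun
        ((dt_meas c i).comp measurable_fst) ((dt_meas c i).comp measurable_snd))
        measurable_const measurable_const
    have hdLb : ∃ C, ∀ q, |c.dL (c.W w) L q| ≤ C := by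
      refine ⟨c.k, fun q => ?_⟩
      unfold CtxE.dL
      refine (Finset.abs_sum_le_sum_abs _ _).trans ?_
      have : ∀ i ∈ (univ : Finset (Fin c.k)), |Av (TT c.T) (c.W w) L (dl c.D1 c.D2 i) q| ≤ 1 :=
        fun i _ => av_bdd _ _ _ zero_le_one (fun q => by
          unfold dl
          split_ifs <;> simp) q
      refine (Finset.sum_le_sum this).trans ?_
      simp
    have hint1 : Integrable (c.dL (c.W w) L) (JJ c.μ Z') := bint hdLm hdLb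
    have hint2 := mis_integrable (Inv (TT c.T) (c.W w)) (JJ c.μ Z') c.D1 c.D2
    have hint3 : Integrable (c.MR Z') (JJ c.μ Z') :=
      mis_integrable (Rt (TT c.T)) (JJ c.μ Z') c.D1 c.D2
    have hle1 := hL₀ L hLL₀
    calc ∫ q, |c.dL (c.W w) L q - c.MR Z' q| ∂(JJ c.μ Z')
        ≤ ∫ q, (|c.dL (c.W w) L q - Mis (JJ c.μ Z') (Inv (TT c.T) (c.W w)) c.D1 c.D2 q| +
          |Mis (JJ c.μ Z') (Inv (TT c.T) (c.W w)) c.D1 c.D2 q - c.MR Z' q|) ∂(JJ c.μ Z') := by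
          refine integral_mono (hint1.sub hint3).abs
            ((hint1.sub hint2).abs.add (hint2.sub hint3).abs) fun q => ?_
          exact abs_sub_le _ _ _
      _ = _ := integral_add (hint1.sub hint2).abs (hint2.sub hint3).abs
      _ ≤ θ := by linarith
  have hsd' : c.μ.real (symmDiff X1 X1') ≤ θ := by linarith
  have hBG := h5 c Z' c₀ X1 X1' (c.W w) L n R θ θ θ hZ' hrt hc0 hc1 hX1 hXg hcl (W_pos c w)
    hLpos hX1' hsd' hwin hR1 hR2 hRw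
  have hBG' : P.real (c.BG Z' (c.W w) L n X1') ≤ M / (10 ^ 6 * ((c.k : ℝ) + 1) ^ 2) := by
    refine hBG.trans ?_
    linarith
  have hmpX : MeasurePreserving (TX c.T (n + 1)) P P :=
    hpxt c.X c.μ c.T Z' (n + 1) R hT hZ' hR1 hR2 hRT
  have hfacX := hpxf c.X c.μ c.T Z' (n + 1) R hT hZ' hR1 hR2 hRT
  obtain ⟨hselm, -, -⟩ := h6 c Z' X1' (c.W w) L n 0 P hmpX (W_pos c w) hLpos hX1'
  let e : SwE d :=
    { Ω := XX c.X (n + 1)
      P := P
      T := TX c.T (n + 1)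
      mp := hmpX
      g := prX c.X (n + 1)
      fac := hfacX.1
      s := c.sel (c.W w) L n X1'
      sm := hselm }
  have hmove : ∀ l ≤ L₁, e.P.real {ω | e.s (e.T^[d.W * l] ω) ≠ e.s ω} ≤ η := by
    intro l hl
    have := (h6 c Z' X1' (c.W w) L n l P hmpX (W_pos c w) hLpos hX1').2.1
      (le_trans (Nat.mul_le_mul_left _ hl) hLL₁)
    refine le_trans this ?_
    have h2 : 2 * (M / (10 ^ 6 * ((c.k : ℝ) + 1) ^ 2)) ≤ η := by
      rw [hη, mul_div_assoc', div_le_div_iff₀ (by positivity) (by positivity)]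
      have : 0 ≤ M * ((c.k : ℝ) + 1) ^ 2 := by positivity
      nlinarith
    linarith
  have hAinv : MeasurableSet[Inv (TX c.T (n + 1)) (c.W w)] {q : XX c.X (n + 1) | q.1.1 ∈ X1'} := by
    obtain ⟨m1, m2⟩ := (set_inv_iff c.T (c.W w) X1').1 hX1'
    refine (set_inv_iff _ _ _).2 ⟨?_, ?_⟩
    · exact (measurable_fst.comp measurable_fst) m1
    · intro q
      have := fac_it hfacX.2.2.2.2.1 (c.W w) q
      change ((TX c.T (n + 1))^[c.W w] q).1.1 ∈ X1' ↔ q.1.1 ∈ X1'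
      rw [this]
      exact m2 q.1.1
  have hfinal := hL₁ e hmove {q : XX c.X (n + 1) | q.1.1 ∈ X1'} hAinv
  refine ⟨n, w, L, X1, X1', R, θ, hw, hLpos, hθ0.le, ⟨h, hL⟩, hRp, hX1, hXg, hpos, hX1', hsd',
    hRT, hRJ, hR1, hR2, hRx, by linarith, hwin, hBG', ?_, ?_⟩
  · refine le_trans (le_of_eq ?_) hθ1
    ring
  · refine le_trans hfinal ?_
    have hη' : 300 * ((d.k : ℝ) + 1) ^ 2 * η = M / 100 := by
      change 300 * ((c.k : ℝ) + 1) ^ 2 * η = M / 100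
      rw [hη]
      field_simp
      ring
    rw [hη']
    exact le_refl _

end Pool.Agent.H95.AG
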